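import Pool.Agent.H99.Tube2

set_option autoImplicit false

open Filter Topology Complex Set MeasureTheory

namespace Pool.Agent.Results.MP_48685d_an.Unrestricted

/-- nonempty open convex cone whose closure contains no straight line -/
def IsRegularCone {n : ℕ} (Γ : Set (Fin n → ℝ)) : Prop :=
  Γ.Nonempty ∧ IsOpen Γ ∧ Convex ℝ Γ ∧ (∀ y ∈ Γ, ∀ t : ℝ, 0 < t → t • y ∈ Γ) ∧
    ¬ ∃ a v : Fin n → ℝ, v ≠ 0 ∧ ∀ s : ℝ, a + s • v ∈ closure Γ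

/-- the point `x + i y` of `ℂⁿ` -/
noncomputable def pt {n : ℕ} (x y : Fin n → ℝ) : Fin n → ℂ := fun j => x j + y j * I

/-- `F ∈ H^p(T_Γ)` -/
def MemHp {n : ℕ} (Γ : Set (Fin n → ℝ)) (p : ℝ) (F : (Fin n → ℂ) → ℂ) : Prop :=
  DifferentiableOn ℂ F {z | (fun j => (z j).im) ∈ Γ} ∧
    ∃ C : ℝ, ∀ y ∈ Γ, ∫⁻ x, ENNReal.ofReal (‖F (pt x y)‖ ^ p) ≤ ENNReal.ofReal C

/-- `F₀` is the proper-subcone (restricted) almost everywhere boundary limit of `F` -/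
def IsRestrictedLimit {n : ℕ} (Γ : Set (Fin n → ℝ)) (F : (Fin n → ℂ) → ℂ)
    (F₀ : (Fin n → ℝ) → ℂ) : Prop :=
  ∀ Γ₀, IsRegularCone Γ₀ → closure Γ₀ ⊆ Γ ∪ {0} → Γ₀ ⊆ Γ →
    ∀ᵐ x, Tendsto (fun y => F (pt x y)) (𝓝[Γ₀] 0) (𝓝 (F₀ x))

theorem subcone {n : ℕ} {Γ : Set (Fin n → ℝ)} (h : IsRegularCone Γ) {y : Fin n → ℝ} (hy : y ∈ Γ) :
    ∃ Γ₀, IsRegularCone Γ₀ ∧ closure Γ₀ ⊆ Γ ∪ {0} ∧ Γ₀ ⊆ Γ ∧ y ∈ Γ₀ := by
  by_cases h0 : (0 : Fin n → ℝ) ∈ Γ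
  · refine ⟨Γ, h, fun z _ => Or.inl ?_, Subset.rfl, hy⟩
    have t : Tendsto (fun s : ℝ => s • z) (𝓝[>] 0) (𝓝 0) :=
      ((by fun_prop : Continuous fun s : ℝ => s • z).tendsto' 0 _ (by simp)).mono_left
        nhdsWithin_le_nhds
    obtain ⟨s, h1, h2⟩ := ((t.eventually (h.2.1.mem_nhds h0)).and self_mem_nhdsWithin).exists
    simpa [smul_smul, inv_mul_cancel₀ (ne_of_gt h2)] using h.2.2.2.1 _ h1 _ (inv_pos.2 h2)
  obtain ⟨δ, δ0, hδ⟩ := Metric.nhds_basis_closedBall.mem_iff.1 (h.2.1.mem_nhds hy)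
  have yn : δ < ‖y‖ := by
    by_contra c
    exact h0 (hδ (by simpa using not_lt.1 c))
  have sub : {z | ∃ t : ℝ, 0 < t ∧ ‖z - t • y‖ < t * δ} ⊆ Γ := by
    rintro z ⟨t, t0, ht⟩
    have : t⁻¹ • z ∈ Γ := hδ (by
      rw [Metric.mem_closedBall, dist_eq_norm, show t⁻¹ • z - y = t⁻¹ • (z - t • y) by
        simp [smul_sub, smul_smul, inv_mul_cancel₀ t0.ne'], norm_smul, Real.norm_of_nonneg
        (inv_pos.2 t0).le, inv_mul_le_iff₀ t0]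
      exact ht.le)
    simpa [smul_smul, mul_inv_cancel₀ t0.ne'] using h.2.2.2.1 _ this _ t0
  refine ⟨{z | ∃ t : ℝ, 0 < t ∧ ‖z - t • y‖ < t * δ}, ⟨⟨y, 1, one_pos, by simpa using δ0⟩, ?_, ?_, ?_,
    fun ⟨a, v, hv, hs⟩ => h.2.2.2.2 ⟨a, v, hv, fun s => closure_mono sub (hs s)⟩⟩, fun z hz => ?_,
    sub, 1, one_pos, by simpa using δ0⟩
  · rw [ofPred_exists]
    refine isOpen_iUnion fun t => isOpen_const.inter (s := {_z | 0 < t}) ?_
    exact isOpen_lt (f := fun z => ‖z - t • y‖) (by fun_prop) continuous_const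
  · rintro z ⟨t, t0, ht⟩ w ⟨s, s0, hs⟩ a b ha hb hab
    refine ⟨a * t + b * s, convex_Ioi (0 : ℝ) t0 s0 ha hb hab, ?_⟩
    rw [show a • z + b • w - (a * t + b * s) • y = a • (z - t • y) + b • (w - s • y) by module]
    refine (norm_add_le _ _).trans_lt ?_
    rw [norm_smul, norm_smul, Real.norm_of_nonneg ha, Real.norm_of_nonneg hb]
    have := convex_Ioi (0 : ℝ) (sub_pos.2 ht) (sub_pos.2 hs) ha hb hab
    simp only [smul_eq_mul, mem_Ioi] at this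
    linarith
  · rintro z ⟨t, t0, ht⟩ s s0
    refine ⟨s * t, by positivity, ?_⟩
    rw [mul_smul, ← smul_sub, norm_smul, Real.norm_of_nonneg s0.le, mul_assoc]
    gcongr
  · obtain ⟨u, hu, hl⟩ := mem_closure_iff_seq_limit.1 hz
    choose t t0 ht using hu
    obtain ⟨M, hM⟩ := hl.norm.bddAbove_range
    have tb : ∀ k, t k ∈ Icc 0 (M / (‖y‖ - δ)) := fun k => ⟨(t0 k).le, by
      rw [le_div_iff₀ (sub_pos.2 yn)]
      have h1 := norm_sub_norm_le (t k • y) (u k)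
      rw [norm_sub_rev, norm_smul, Real.norm_of_nonneg (t0 k).le] at h1
      linarith [hM ⟨k, rfl⟩, ht k]⟩
    obtain ⟨s, hs, φ, hφ, l⟩ := isCompact_Icc.tendsto_subseq tb
    have le := le_of_tendsto_of_tendsto' ((hl.comp hφ.tendsto_atTop).sub (l.smul_const y)).norm
      (l.mul_const δ) fun k => (ht (φ k)).le
    rcases hs.1.eq_or_lt with rfl | s0
    · right; simpa using le
    · left
      have : s⁻¹ • z ∈ Γ := hδ (by
        rw [Metric.mem_closedBall, dist_eq_norm, show s⁻¹ • z - y = s⁻¹ • (z - s • y) by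
          simp [smul_sub, smul_smul, inv_mul_cancel₀ s0.ne'], norm_smul, Real.norm_of_nonneg
          (inv_pos.2 s0).le, inv_mul_le_iff₀ s0]
        exact le)
      simpa [smul_smul, mul_inv_cancel₀ s0.ne'] using h.2.2.2.1 _ this _ s0

theorem result (n : ℕ) (Γ : Set (Fin n → ℝ)) (hΓ : IsRegularCone Γ) (p : ℝ) (hp : 0 < p)
    (hp1 : p < 1) (F : (Fin n → ℂ) → ℂ) (hF : MemHp Γ p F) (F₀ : (Fin n → ℝ) → ℂ)
    (h₀ : IsRestrictedLimit Γ F F₀) :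
    Tendsto (fun y => ∫⁻ x, ENNReal.ofReal (‖F (pt x y) - F₀ x‖ ^ p)) (𝓝[Γ] 0) (𝓝 0) := by
  obtain ⟨hd, C, hC⟩ := hF
  refine Pool.Agent.H99.Tube.main hΓ.1 hΓ.2.2.2.1 (fun y hy y' hy' => ?_) hd hp hp1.le
    (le_max_right C 0) (fun y hy => (hC y hy).trans (ENNReal.ofReal_le_ofReal (le_max_left _ _)))
    fun y hy => ?_
  · have hc := hΓ.2.2.1
    have := hΓ.2.2.2.1 _ (hc hy hy' (a := 1 / 2) (b := 1 / 2) (by norm_num) (by norm_num)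
      (by norm_num)) 2 two_pos
    simpa [smul_smul] using this
  · obtain ⟨Γ₀, h1, h2, h3, h4⟩ := subcone hΓ hy
    refine (h₀ Γ₀ h1 h2 h3).mono fun x hx => hx.comp (tendsto_nhdsWithin_iff.2
      ⟨?_, eventually_nhdsWithin_of_forall fun s h => h1.2.2.2.1 _ h4 _ h⟩)
    exact ((by fun_prop : Continuous fun s : ℝ => s • y).tendsto' 0 _ (by simp)).mono_left
      nhdsWithin_le_nhds

end Pool.Agent.Results.MP_48685d_an.Unrestricted
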